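import Pool.Agent.Lib.MP_7ac6fe_nt.Main

/-!
`MP_7ac6fe_nt`: every residue class modulo a number with at most twelve distinct odd prime factors
(in particular, modulo every number below `6.5 * 10 ^ 15`) contains infinitely many `n` such that
`2 n + 1 = 2 p + q` with `p`, `q` and `prime (p + 2) + 2` prime.
-/

namespace Pool.Agent.Results.MP_7ac6fe_nt.NoProgressionOfExceptions

/-- `prime k`, the `k`-th prime (`prime 1 = 2`, `prime 2 = 3`, ...) -/
noncomputable def prime (k : ℕ) : ℕ := Nat.nth Nat.Prime (k - 1)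

/-- the conclusion of Q1 for `n` -/
def Representable (n : ℕ) : Prop :=
  ∃ p q : ℕ, p.Prime ∧ q.Prime ∧ 2 * n + 1 = 2 * p + q ∧ (prime (p + 2) + 2).Prime

/-- the product of thirteen distinct odd primes -/
theorem prod_ge {S : Finset ℕ} (hS : ∀ r ∈ S, r.Prime ∧ r ≠ 2) (hc : 13 ≤ S.card) :
    6541380665835015 ≤ ∏ r ∈ S, r := by
  set F : Finset ℕ := {3, 5, 7, 11, 13, 17, 19, 23, 29, 31, 37, 41, 43} with hF
  have hFc : F.card = 13 := by decide
  have hFp : ∏ r ∈ F, r = 6541380665835015 := by decide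
  have h1 : (F \ S).card ≤ (S \ F).card := by
    have e1 := Finset.card_sdiff_add_card_inter F S
    have e2 := Finset.card_sdiff_add_card_inter S F
    rw [Finset.inter_comm] at e2
    omega
  have h2 : ∏ r ∈ F \ S, r ≤ 43 ^ (F \ S).card := by
    refine Finset.prod_le_pow_card _ _ _ fun r hr => ?_
    have hr2 := (Finset.mem_sdiff.1 hr).1
    rw [hF] at hr2
    simp only [Finset.mem_insert, Finset.mem_singleton] at hr2
    omega
  have h3 : 43 ^ (S \ F).card ≤ ∏ r ∈ S \ F, r := by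
    refine Finset.pow_card_le_prod _ _ _ fun r hr => ?_
    obtain ⟨hr1, hr2⟩ := Finset.mem_sdiff.1 hr
    obtain ⟨hp, h22⟩ := hS r hr1
    by_contra hlt
    have hlt' : r < 43 := by omega
    apply hr2
    rw [hF]
    interval_cases r <;> first | exact absurd rfl h22 | decide | exact absurd hp (by norm_num)
  have h4 : ∏ r ∈ F, r = (∏ r ∈ F \ S, r) * ∏ r ∈ F ∩ S, r := by
    rw [mul_comm, Finset.prod_inter_mul_prod_sdiff]
  have h5 : ∏ r ∈ S, r = (∏ r ∈ S \ F, r) * ∏ r ∈ F ∩ S, r := by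
    rw [Finset.inter_comm, mul_comm, Finset.prod_inter_mul_prod_sdiff]
  rw [← hFp, h4, h5]
  refine Nat.mul_le_mul_right _ (h2.trans ((Nat.pow_le_pow_right (by norm_num) h1).trans h3))

theorem card_le {m : ℕ} (hm : 0 < m) (h : m < 6541380665835015) :
    (m.primeFactors.erase 2).card ≤ 12 := by
  by_contra hcon
  have h1 : 6541380665835015 ≤ ∏ r ∈ m.primeFactors.erase 2, r := by
    refine prod_ge (fun r hr => ?_) (by omega)
    obtain ⟨h2, h3⟩ := Finset.mem_erase.1 hr
    exact ⟨Nat.prime_of_mem_primeFactors h3, h2⟩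
  have h2 : ∏ r ∈ m.primeFactors.erase 2, r ≤ ∏ r ∈ m.primeFactors, r :=
    Finset.prod_le_prod_of_subset_of_one_le' (Finset.erase_subset _ _)
      fun r hr _ => (Nat.prime_of_mem_primeFactors hr).one_lt.le
  have h3 : ∏ r ∈ m.primeFactors, r ≤ m := Nat.le_of_dvd hm (Nat.prod_primeFactors_dvd m)
  omega

/-- Let `m` have at most twelve distinct odd prime factors, or let `m < 6541380665835015`.  Then
every residue class modulo `m` contains infinitely many `n` for which the conclusion of Q1 holds. -/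
theorem result (m : ℕ) (hm : 0 < m)
    (h : (m.primeFactors.erase 2).card ≤ 12 ∨ m < 6541380665835015) (a : ℕ) :
    {n : ℕ | n ≡ a [MOD m] ∧ Representable n}.Infinite := by
  have hK : (m.primeFactors.erase 2).card ≤ 12 := h.elim id (card_le hm)
  -- an admissible prime outside the bad classes
  obtain ⟨p, hp, hpr⟩ := Pool.Agent.Lib.MP_7ac6fe_nt.exists_outside
    (fun r => ((2 * a + 1) * ((r + 1) / 2)) % r) (m.primeFactors.erase 2)
    (fun r hr => ⟨Nat.prime_of_mem_primeFactors (Finset.mem_erase.1 hr).2, (Finset.mem_erase.1 hr).1⟩)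
    hK
  obtain ⟨hpp, hp2⟩ := Pool.Agent.Lib.MP_7ac6fe_nt.T0_spec hp
  -- coprimality
  have hcop : IsCoprime (2 * (a : ℤ) + 1 - 2 * p) ((2 * m : ℕ) : ℤ) := by
    rw [Int.isCoprime_iff_gcd_eq_one]
    by_contra hg
    obtain ⟨r, hr, hrg⟩ := Nat.exists_prime_and_dvd hg
    have h1 : (r : ℤ) ∣ 2 * (a : ℤ) + 1 - 2 * p :=
      (Int.natCast_dvd_natCast.2 hrg).trans (Int.gcd_dvd_left _ _)
    have h2 : r ∣ 2 * m :=
      Int.natCast_dvd_natCast.1 ((Int.natCast_dvd_natCast.2 hrg).trans (Int.gcd_dvd_right _ _))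
    rcases hr.eq_two_or_odd with h3 | h3
    · subst h3
      obtain ⟨k, hk⟩ := h1
      omega
    · have h4 : r ∣ m := by
        rcases (Nat.Prime.dvd_mul hr).1 h2 with h5 | h5
        · have := Nat.le_of_dvd (by norm_num) h5
          have := hr.two_le
          omega
        · exact h5
      have h5 := hpr r (Finset.mem_erase.2 ⟨by omega, Nat.mem_primeFactors.2 ⟨hr, h4, hm.ne'⟩⟩)
      apply h5
      -- `p ≡ (2 a + 1) (r + 1) / 2` modulo `r`
      obtain ⟨k, hk⟩ := h1
      have h6 : (r : ℤ) = 2 * ((r + 1) / 2 : ℕ) - 1 := by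
        push_cast
        omega
      have h7 : (p : ℤ) ≡ (2 * a + 1) * ((r + 1) / 2 : ℕ) [ZMOD r] := by
        rw [Int.modEq_iff_dvd]
        refine ⟨p + k * ((r + 1) / 2 : ℕ), ?_⟩
        have h8 : (2 * (a : ℤ) + 1) = 2 * p + r * k := by linarith
        rw [h8]
        set t : ℤ := (((r + 1) / 2 : ℕ) : ℤ) with ht
        rw [h6]
        ring
      have h8 : p ≡ (2 * a + 1) * ((r + 1) / 2) [MOD r] := by
        rw [← Int.natCast_modEq_iff]
        push_cast at h7 ⊢
        exact h7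
      exact h8
  -- Dirichlet's theorem
  rw [Set.infinite_iff_exists_gt]
  intro N
  obtain ⟨q, hqN, hq, hqm⟩ := Nat.forall_exists_prime_gt_and_zmodEq (2 * N + 2) (q := 2 * m)
    (by omega) hcop
  obtain ⟨k, hk⟩ := (Int.modEq_iff_dvd.1 hqm)
  have hq2 : q % 2 = 1 := by
    rcases hq.eq_two_or_odd with h3 | h3
    · omega
    · exact h3
  refine ⟨p + q / 2, ⟨?_, p, q, hpp, hq, by omega, ?_⟩, by omega⟩
  · rw [← Int.natCast_modEq_iff]
    refine Int.modEq_iff_dvd.2 ⟨k, ?_⟩
    have h1 : (q : ℤ) = 2 * ((q / 2 : ℕ) : ℤ) + 1 := by omega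
    push_cast at hk ⊢
    push_cast at h1
    linarith
  · exact hp2

end Pool.Agent.Results.MP_7ac6fe_nt.NoProgressionOfExceptions
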